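import Pool.Agent.R957.CP.Contacts

/-!
# Central projections from antipodal points (MP_39a3b1, plane case): the six cases
-/

set_option autoImplicit false

namespace Pool.Agent.R957.CP

open Set

/-- `-5/4 ≤ t ≤ -4/5`. -/
theorem good_J0 {t : ℝ} (h1 : -5/4 ≤ t) (h2 : t ≤ -4/5) : Good t := by
  have ht : t < 0 := by linarith
  have ht0 : t ≠ 0 := ht.ne
  have hr1 : 4/5 ≤ -1/t := by
    rw [le_div_iff_of_neg ht]; linarith
  have hr2 : -1/t ≤ 5/4 := by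
    rw [div_le_iff_of_neg ht]; linarith
  have hv1 : -17/30 ≤ -t-41/30 := by linarith
  have hv2 : -t-41/30 ≤ -7/60 := by linarith
  have hw1 : -17/30 ≤ -1/t-41/30 := by linarith
  have hw2 : -1/t-41/30 ≤ -7/60 := by linarith
  have hA1 : -5/4 ≤ -1/t-41/20 := by linarith
  have hA2 : -1/t-41/20 ≤ -4/5 := by linarith
  have hκ1 : 0 ≤ -60/(41*t) := div_nonneg_of_nonpos (by norm_num) (by linarith)
  have hκ2 : 0 ≤ -(60*t/41) := by linarith
  have ka : ∀ X Y Z : ℝ, (X - t*Z) - (t+41/30)*60/(41*t) * (Y - 2*t*X + t^2*Z) =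
      -60/(41*t) * (-(-t-41/30)*Y - (2*(-t-41/30)^2+41/20*(-t-41/30)-1681/1800)*X +
        (-(-t-41/30)^3-41/20*(-t-41/30)^2+68921/54000)*Z) := by
    intro X Y Z; field_simp; ring
  have kb' : ∀ X Y Z : ℝ, -(1+41/20*t)*60/(41*t^2) * (Z + 2*t*X + t^2*Y) + (X + t*Y) =
      -(60*t/41) * (-(-1/t-41/30)*Y + (2*(-1/t-41/30)^2+41/20*(-1/t-41/30)-1681/1800)*X +
        (-(-1/t-41/30)^3-41/20*(-1/t-41/30)^2+68921/54000)*Z) := by
    intro X Y Z; field_simp; ring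
  have ka' : ∀ X Y Z : ℝ, -(X + t*Y) - -(1+41/60*t)*60/(41*t^2) * (Z + 2*t*X + t^2*Y) =
      60/41 * (Y - ((2*(-1/t-41/20)+41/12)*X -
        ((-1/t-41/20)+41/30)*((-1/t-41/20)+41/20)*Z)) := by
    intro X Y Z; field_simp; ring
  refine ⟨(t+41/30)*60/(41*t), 60/41, -(1+41/60*t)*60/(41*t^2), -(1+41/20*t)*60/(41*t^2),
    ?_, ?_, ?_, ?_, ?_, ?_, ?_, ?_, ?_⟩
  · field_simp; ring
  · intro X Y Z h
    have e := mul_nonneg hκ1 (h.l5 _ hv1 hv2)
    have := ka X Y Z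
    linarith
  · intro X Y Z h
    have e := h.l0 t h1 h2
    linarith
  · intro X Y Z h
    have e := h.l2 _ hA1 hA2
    have := ka' X Y Z
    linarith
  · intro X Y Z h
    have e := mul_nonneg hκ2 (h.l3 _ hw1 hw2)
    have := kb' X Y Z
    linarith
  · obtain ⟨X, Y, h, he⟩ := contact5 hv1 hv2
    refine ⟨X, Y, h, ?_⟩
    have := ka X Y 1
    rw [mul_one, mul_one, mul_one, ← he, mul_zero] at this
    linarith
  · refine ⟨_, _, contact0 h1 h2, ?_⟩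
    ring
  · refine ⟨_, _, contact2 hA1 hA2, ?_⟩
    have := ka' ((-1/t-41/20)+41/24) (((-1/t-41/20)+41/24)^2+1681/14400) 1
    have e : 60/41 * ((((-1/t-41/20)+41/24)^2+1681/14400) -
        ((2*(-1/t-41/20)+41/12)*((-1/t-41/20)+41/24) -
        ((-1/t-41/20)+41/30)*((-1/t-41/20)+41/20)*1)) = 0 := by ring
    rw [e] at this
    linarith
  · obtain ⟨X, Y, h, he⟩ := contact3 hw1 hw2
    refine ⟨X, Y, h, ?_⟩
    have := kb' X Y 1
    rw [mul_one, ← he, mul_zero] at this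
    linarith

/-- `-17/30 ≤ t ≤ -7/60`. -/
theorem good_J1 {t : ℝ} (h1 : -17/30 ≤ t) (h2 : t ≤ -7/60) : Good t := by
  obtain ⟨m, ⟨hm1, hm2⟩, hm⟩ : ∃ m ∈ Icc (-9/40 : ℝ) (9/40),
      m - 41/120 - t * (1681/1600 - m^2) = 0 := by
    have hc : ContinuousOn (fun m : ℝ => m - 41/120 - t * (1681/1600 - m^2))
        (Icc (-9/40) (9/40)) := by fun_prop
    have := intermediate_value_Icc (by norm_num : (-9/40 : ℝ) ≤ 9/40) hc
    have h0 : (0 : ℝ) ∈ Icc ((fun m : ℝ => m - 41/120 - t * (1681/1600 - m^2)) (-9/40))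
        ((fun m : ℝ => m - 41/120 - t * (1681/1600 - m^2)) (9/40)) := by
      constructor
      · norm_num; linarith
      · norm_num; linarith
    obtain ⟨m, hm, h⟩ := this h0
    exact ⟨m, hm, h⟩
  have hq : 0 < 1681/1600 - m^2 := by nlinarith
  have hq0 : 1681/1600 - m^2 ≠ 0 := hq.ne'
  have ht : t = (m - 41/120) / (1681/1600 - m^2) := by
    rw [eq_div_iff hq0]; linarith
  have hv1 : -17/30 ≤ m-41/120 := by linarith
  have hv2 : m-41/120 ≤ -7/60 := by linarith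
  have hv0 : 0 < m-41/120+41/30 := by linarith
  have hA1 : -5/4 ≤ t-41/60 := by linarith
  have hA2 : t-41/60 ≤ -4/5 := by linarith
  have hT1 : -9/40 ≤ t+41/120 := by linarith
  have hT2 : t+41/120 ≤ 9/40 := by linarith
  have kb : ∀ X Y Z : ℝ, 41*(1681/1600 - m^2) * ((1681/1600 - m^2)*60/41 *
        (Y - 2*t*X + t^2*Z) - (X - t*Z)) =
      60 * ((1681/1600-m^2)^2*Y - (2*m*(1681/1600-m^2)*X -
        (1681/1800 - (1681/1600-m^2))*Z)) := by
    intro X Y Z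
    linear_combination (120*(1681/1600 - m^2)*X - 60*(m - 41/120 + t*(1681/1600 - m^2))*Z -
      41*Z) * hm
  have ka' : ∀ X Y Z : ℝ, 41*(m-41/120+41/30) * (-(X + t*Y) -
        -((1681/1600 - m^2)*60/41) * (Z + 2*t*X + t^2*Y)) =
      60 * (-(m-41/120)*Y + (2*(m-41/120)^2+41/20*(m-41/120)-1681/1800)*X +
        (-(m-41/120)^3-41/20*(m-41/120)^2+68921/54000)*Z) := by
    intro X Y Z
    linear_combination (60*Y - (m-41/120+41/30)*(120*X + 60*t*Y)) * hm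
  refine ⟨-(60/41), (1681/1600 - m^2)*60/41, -((1681/1600 - m^2)*60/41), 60/41,
    ?_, ?_, ?_, ?_, ?_, ?_, ?_, ?_, ?_⟩
  · ring
  · intro X Y Z h
    have e := h.l0 _ hA1 hA2
    linarith
  · intro X Y Z h
    have e := mul_nonneg (by norm_num : (0 : ℝ) ≤ 60) (sub_nonneg.2 (h.l1 m hm1 hm2))
    rw [← kb X Y Z, mul_nonneg_iff_of_pos_left (by positivity)] at e
    linarith
  · intro X Y Z h
    have e := mul_nonneg (by norm_num : (0 : ℝ) ≤ 60) (h.l3 _ hv1 hv2)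
    rw [← ka' X Y Z, mul_nonneg_iff_of_pos_left (by positivity)] at e
    linarith
  · intro X Y Z h
    have e := h.top _ hT1 hT2
    linarith
  · refine ⟨_, _, contact0 hA1 hA2, ?_⟩
    ring
  · obtain ⟨X, Y, h, he⟩ := contact1 hm1 hm2
    refine ⟨X, Y, h, ?_⟩
    have := kb X Y 1
    rw [mul_one, mul_one, mul_one, he, sub_self, mul_zero] at this
    rcases mul_eq_zero.1 this with h' | h'
    · exact absurd h' (by positivity)
    · linarith
  · obtain ⟨X, Y, h, he⟩ := contact3 hv1 hv2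
    refine ⟨X, Y, h, ?_⟩
    have := ka' X Y 1
    rw [mul_one (-(m-41/120)^3-41/20*(m-41/120)^2+68921/54000), ← he, mul_zero] at this
    rcases mul_eq_zero.1 this with h' | h'
    · exact absurd h' (by positivity)
    · linarith
  · refine ⟨_, _, contactT hT1 hT2, ?_⟩
    have : (t+41/120)^2+1681/14400 ≠ 0 := by positivity
    field_simp
    ring

/-- `7/60 ≤ t ≤ 17/30`. -/
theorem good_J2 {t : ℝ} (h1 : 7/60 ≤ t) (h2 : t ≤ 17/30) : Good t := by
  obtain ⟨m, ⟨hm1, hm2⟩, hm⟩ : ∃ m ∈ Icc (-9/40 : ℝ) (9/40),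
      m + 41/120 - t * (1681/1600 - m^2) = 0 := by
    have hc : ContinuousOn (fun m : ℝ => m + 41/120 - t * (1681/1600 - m^2))
        (Icc (-9/40) (9/40)) := by fun_prop
    have := intermediate_value_Icc (by norm_num : (-9/40 : ℝ) ≤ 9/40) hc
    have h0 : (0 : ℝ) ∈ Icc ((fun m : ℝ => m + 41/120 - t * (1681/1600 - m^2)) (-9/40))
        ((fun m : ℝ => m + 41/120 - t * (1681/1600 - m^2)) (9/40)) := by
      constructor
      · norm_num; linarith
      · norm_num; linarith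
    obtain ⟨m, hm, h⟩ := this h0
    exact ⟨m, hm, h⟩
  have hq : 0 < 1681/1600 - m^2 := by nlinarith
  have hq0 : 1681/1600 - m^2 ≠ 0 := hq.ne'
  have ht : t = (m + 41/120) / (1681/1600 - m^2) := by
    rw [eq_div_iff hq0]; linarith
  have hv1 : -17/30 ≤ -(m+41/120) := by linarith
  have hv2 : -(m+41/120) ≤ -7/60 := by linarith
  have hv0 : 0 < -(m+41/120)+41/30 := by linarith
  have hA1 : -5/4 ≤ t-41/30 := by linarith
  have hA2 : t-41/30 ≤ -4/5 := by linarith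
  have hT1 : -9/40 ≤ t-41/120 := by linarith
  have hT2 : t-41/120 ≤ 9/40 := by linarith
  have ka : ∀ X Y Z : ℝ, 41*(1681/1600 - m^2) * ((X - t*Z) -
        -((1681/1600 - m^2)*60/41) * (Y - 2*t*X + t^2*Z)) =
      60 * ((1681/1600-m^2)^2*Y - (2*m*(1681/1600-m^2)*X -
        (1681/1800 - (1681/1600-m^2))*Z)) := by
    intro X Y Z
    linear_combination (120*(1681/1600 - m^2)*X - 60*(m + 41/120 + t*(1681/1600 - m^2))*Z +
      41*Z) * hm
  have kb' : ∀ X Y Z : ℝ, 41*(-(m+41/120)+41/30) * ((1681/1600 - m^2)*60/41 *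
        (Z + 2*t*X + t^2*Y) + (X + t*Y)) =
      60 * (-(-(m+41/120))*Y -
        (2*(-(m+41/120))^2+41/20*(-(m+41/120))-1681/1800)*X +
        (-(-(m+41/120))^3-41/20*(-(m+41/120))^2+68921/54000)*Z) := by
    intro X Y Z
    linear_combination (-60*Y - (-(m+41/120)+41/30)*(120*X + 60*t*Y)) * hm
  refine ⟨-((1681/1600 - m^2)*60/41), 60/41, -(60/41), (1681/1600 - m^2)*60/41,
    ?_, ?_, ?_, ?_, ?_, ?_, ?_, ?_, ?_⟩
  · ring
  · intro X Y Z h
    have e := mul_nonneg (by norm_num : (0 : ℝ) ≤ 60) (sub_nonneg.2 (h.l1 m hm1 hm2))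
    rw [← ka X Y Z, mul_nonneg_iff_of_pos_left (by positivity)] at e
    linarith
  · intro X Y Z h
    have e := h.l2 _ hA1 hA2
    linarith
  · intro X Y Z h
    have e := h.top _ hT1 hT2
    linarith
  · intro X Y Z h
    have e := mul_nonneg (by norm_num : (0 : ℝ) ≤ 60) (h.l5 _ hv1 hv2)
    rw [← kb' X Y Z, mul_nonneg_iff_of_pos_left (by positivity)] at e
    linarith
  · obtain ⟨X, Y, h, he⟩ := contact1 hm1 hm2
    refine ⟨X, Y, h, ?_⟩
    have := ka X Y 1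
    rw [mul_one, mul_one, mul_one, he, sub_self, mul_zero] at this
    rcases mul_eq_zero.1 this with h' | h'
    · exact absurd h' (by positivity)
    · linarith
  · refine ⟨_, _, contact2 hA1 hA2, ?_⟩
    ring
  · refine ⟨_, _, contactT hT1 hT2, ?_⟩
    have : (t-41/120)^2+1681/14400 ≠ 0 := by positivity
    field_simp
    ring
  · obtain ⟨X, Y, h, he⟩ := contact5 hv1 hv2
    refine ⟨X, Y, h, ?_⟩
    have := kb' X Y 1
    rw [mul_one (-(-(m+41/120))^3-41/20*(-(m+41/120))^2+68921/54000), ← he, mul_zero] at this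
    rcases mul_eq_zero.1 this with h' | h'
    · exact absurd h' (by positivity)
    · linarith

/-! ### corners -/

theorem le_w {a D U V : ℝ} (hD : 0 < D) (h : U * D ≤ a * V) : U ≤ a / D * V := by
  rw [div_mul_eq_mul_div, le_div_iff₀ hD]; exact h

theorem w_le {a D U V : ℝ} (hD : 0 < D) (h : a * V ≤ U * D) : a / D * V ≤ U := by
  rw [div_mul_eq_mul_div, div_le_iff₀ hD]; exact h

/-- The chord inequalities used in the gaps (a system invariant under the antipodal map). -/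
structure Q (X Y Z : ℝ) : Prop where
  q0 : 0 ≤ Y + 11/12*X + 7/75*Z
  q0' : 0 ≤ Y - 11/12*X + 7/75*Z
  q1 : 0 ≤ Y + 9/20*X - 119/1800*Z
  q1' : 0 ≤ Y - 9/20*X - 119/1800*Z
  q2 : 0 ≤ Y + 109/60*X + 17/24*Z
  q2' : 0 ≤ Y - 109/60*X + 17/24*Z
  q3 : 0 ≤ Z - 109/60*X + 17/24*Y
  q3' : 0 ≤ Z + 109/60*X + 17/24*Y
  q4 : 0 ≤ Z - 11/12*X + 7/75*Y
  q4' : 0 ≤ Z + 11/12*X + 7/75*Y
  q5 : 0 ≤ Z - 9/20*X - 119/1800*Y
  q5' : 0 ≤ Z + 9/20*X - 119/1800*Y

theorem InK.q {X Y Z : ℝ} (h : InK X Y Z) : Q X Y Z := by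
  have e0 := h.l0 (-4/5) (by norm_num) (by norm_num)
  have e1 := h.l0 (-5/4) (by norm_num) (by norm_num)
  have e2 := h.l1 (-9/40) (by norm_num) (by norm_num)
  have e3 := h.l1 (9/40) (by norm_num) (by norm_num)
  have e4 := h.l2 (-4/5) (by norm_num) (by norm_num)
  have e5 := h.l2 (-5/4) (by norm_num) (by norm_num)
  have e6 := h.l3 (-17/30) (by norm_num) (by norm_num)
  have e7 := h.l3 (-7/60) (by norm_num) (by norm_num)
  have e8 := h.l5 (-17/30) (by norm_num) (by norm_num)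
  have e9 := h.l5 (-7/60) (by norm_num) (by norm_num)
  have e10 := h.top (-9/40) (by norm_num) (by norm_num)
  have e11 := h.top (9/40) (by norm_num) (by norm_num)
  constructor <;> linarith

theorem Q.anti {X Y Z : ℝ} (h : Q X Y Z) : Q (-X) Z Y := by
  obtain ⟨h0, h1, h2, h3, h4, h5, h6, h7, h8, h9, h10, h11⟩ := h
  constructor <;> linarith

theorem up0 {t X Y Z : ℝ} (h : Q X Y Z) (h1 : -4/5 ≤ t) (h2 : t ≤ -17/30) :
    (X - t*Z) * (1583/7200 + 41/60*t + t^2) ≤ (-41/120 - t) * (Y - 2*t*X + t^2*Z) := by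
  have e1 := mul_nonneg (mul_nonneg (by linarith : 0 ≤ -17/30 - t) (by linarith : 0 ≤ 7/60 - t)) h.q0
  have e2 := mul_nonneg (mul_nonneg (by linarith : 0 ≤ t + 4/5) (by linarith : 0 ≤ -7/60 - t)) h.q1
  nlinarith

theorem lo0 {t X Y Z : ℝ} (h : Q X Y Z) (h1 : -7/60 ≤ t) (h2 : t ≤ 7/60) :
    (-41/120 - t) * (Y - 2*t*X + t^2*Z) ≤ (X - t*Z) * (1583/7200 + 41/60*t + t^2) := by
  have e1 := mul_nonneg (mul_nonneg (by linarith : 0 ≤ 17/30 + t) (by linarith : 0 ≤ 7/60 - t)) h.q0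
  have e2 := mul_nonneg (mul_nonneg (by linarith : 0 ≤ t + 4/5) (by linarith : 0 ≤ 7/60 + t)) h.q1
  nlinarith

theorem up1 {t X Y Z : ℝ} (h : Q X Y Z) (h1 : -7/60 ≤ t) (h2 : t ≤ 7/60) :
    (X - t*Z) * (1583/7200 - 41/60*t + t^2) ≤ (41/120 - t) * (Y - 2*t*X + t^2*Z) := by
  have e1 := mul_nonneg (mul_nonneg (by linarith : 0 ≤ 7/60 + t) (by linarith : 0 ≤ 17/30 - t)) h.q0'
  have e2 := mul_nonneg (mul_nonneg (by linarith : 0 ≤ 7/60 - t) (by linarith : 0 ≤ 4/5 - t)) h.q1'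
  nlinarith

theorem lo1 {t X Y Z : ℝ} (h : Q X Y Z) (h1 : 17/30 ≤ t) (h2 : t ≤ 4/5) :
    (41/120 - t) * (Y - 2*t*X + t^2*Z) ≤ (X - t*Z) * (1583/7200 - 41/60*t + t^2) := by
  have e1 := mul_nonneg (mul_nonneg (by linarith : 0 ≤ 7/60 + t) (by linarith : 0 ≤ t - 17/30)) h.q0'
  have e2 := mul_nonneg (mul_nonneg (by linarith : 0 ≤ t - 7/60) (by linarith : 0 ≤ 4/5 - t)) h.q1'
  nlinarith

theorem up2 {t X Y Z : ℝ} (h : Q X Y Z) (h1 : 17/30 ≤ t) (h2 : t ≤ 4/5) :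
    (X - t*Z) * (1 - 205/109*t + t^2) ≤ (205/218 - t) * (Y - 2*t*X + t^2*Z) := by
  have e1 := mul_nonneg (mul_nonneg (by linarith : 0 ≤ 4/5 - t) (by linarith : 0 ≤ 30/17 - t)) h.q2'
  have e2 := mul_nonneg (mul_nonneg (by linarith : 0 ≤ t - 17/30) (by linarith : 0 ≤ 5/4 - t)) h.q3
  nlinarith

theorem lo5 {t X Y Z : ℝ} (h : Q X Y Z) (h1 : -4/5 ≤ t) (h2 : t ≤ -17/30) :
    (-205/218 - t) * (Y - 2*t*X + t^2*Z) ≤ (X - t*Z) * (1 + 205/109*t + t^2) := by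
  have e1 := mul_nonneg (mul_nonneg (by linarith : 0 ≤ 4/5 + t) (by linarith : 0 ≤ 30/17 + t)) h.q2
  have e2 := mul_nonneg (mul_nonneg (by linarith : 0 ≤ -t - 17/30) (by linarith : 0 ≤ 5/4 + t)) h.q3'
  nlinarith

theorem D0_pos (t : ℝ) : 0 < 1583/7200 + 41/60*t + t^2 := by nlinarith [sq_nonneg (t + 41/120)]
theorem D1_pos (t : ℝ) : 0 < 1583/7200 - 41/60*t + t^2 := by nlinarith [sq_nonneg (t - 41/120)]
theorem D2_pos (t : ℝ) : 0 < 1 - 205/109*t + t^2 := by nlinarith [sq_nonneg (t - 205/218)]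
theorem D5_pos (t : ℝ) : 0 < 1 + 205/109*t + t^2 := by nlinarith [sq_nonneg (t + 205/218)]

theorem good_gap0 {t : ℝ} (h1 : -4/5 ≤ t) (h2 : t ≤ -17/30) : Good t := by
  have hD0 := D0_pos t
  have hD5 := D5_pos t
  refine ⟨(-205/218 - t)/(1 + 205/109*t + t^2), (-41/120 - t)/(1583/7200 + 41/60*t + t^2),
    (-205/218 - t)/(1 + 205/109*t + t^2), (-41/120 - t)/(1583/7200 + 41/60*t + t^2), rfl,
    fun X Y Z h => w_le hD5 (lo5 h.q h1 h2), fun X Y Z h => le_w hD0 (up0 h.q h1 h2),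
    fun X Y Z h => ?_, fun X Y Z h => ?_, ⟨_, _, corner5, ?_⟩, ⟨_, _, corner0, ?_⟩,
    ⟨_, _, corner2, ?_⟩, ⟨_, _, corner3, ?_⟩⟩
  · have := lo5 h.q.anti h1 h2
    exact w_le hD5 (by linarith)
  · have := up0 h.q.anti h1 h2
    exact le_w hD0 (by linarith)
  · rw [div_mul_eq_mul_div, div_eq_iff hD5.ne']; ring
  · rw [div_mul_eq_mul_div, eq_div_iff hD0.ne']; ring
  · rw [div_mul_eq_mul_div, div_eq_iff hD5.ne']; ring
  · rw [div_mul_eq_mul_div, eq_div_iff hD0.ne']; ring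

theorem good_gap1 {t : ℝ} (h1 : -7/60 ≤ t) (h2 : t ≤ 7/60) : Good t := by
  have hD0 := D0_pos t
  have hD1 := D1_pos t
  refine ⟨(-41/120 - t)/(1583/7200 + 41/60*t + t^2), (41/120 - t)/(1583/7200 - 41/60*t + t^2),
    (-41/120 - t)/(1583/7200 + 41/60*t + t^2), (41/120 - t)/(1583/7200 - 41/60*t + t^2), rfl,
    fun X Y Z h => w_le hD0 (lo0 h.q h1 h2), fun X Y Z h => le_w hD1 (up1 h.q h1 h2),
    fun X Y Z h => ?_, fun X Y Z h => ?_, ⟨_, _, corner0, ?_⟩, ⟨_, _, corner1, ?_⟩,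
    ⟨_, _, corner3, ?_⟩, ⟨_, _, corner4, ?_⟩⟩
  · have := lo0 h.q.anti h1 h2
    exact w_le hD0 (by linarith)
  · have := up1 h.q.anti h1 h2
    exact le_w hD1 (by linarith)
  · rw [div_mul_eq_mul_div, div_eq_iff hD0.ne']; ring
  · rw [div_mul_eq_mul_div, eq_div_iff hD1.ne']; ring
  · rw [div_mul_eq_mul_div, div_eq_iff hD0.ne']; ring
  · rw [div_mul_eq_mul_div, eq_div_iff hD1.ne']; ring

theorem good_gap2 {t : ℝ} (h1 : 17/30 ≤ t) (h2 : t ≤ 4/5) : Good t := by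
  have hD1 := D1_pos t
  have hD2 := D2_pos t
  refine ⟨(41/120 - t)/(1583/7200 - 41/60*t + t^2), (205/218 - t)/(1 - 205/109*t + t^2),
    (41/120 - t)/(1583/7200 - 41/60*t + t^2), (205/218 - t)/(1 - 205/109*t + t^2), rfl,
    fun X Y Z h => w_le hD1 (lo1 h.q h1 h2), fun X Y Z h => le_w hD2 (up2 h.q h1 h2),
    fun X Y Z h => ?_, fun X Y Z h => ?_, ⟨_, _, corner1, ?_⟩, ⟨_, _, corner2, ?_⟩,
    ⟨_, _, corner4, ?_⟩, ⟨_, _, corner5, ?_⟩⟩
  · have := lo1 h.q.anti h1 h2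
    exact w_le hD1 (by linarith)
  · have := up2 h.q.anti h1 h2
    exact le_w hD2 (by linarith)
  · rw [div_mul_eq_mul_div, div_eq_iff hD1.ne']; ring
  · rw [div_mul_eq_mul_div, eq_div_iff hD2.ne']; ring
  · rw [div_mul_eq_mul_div, div_eq_iff hD1.ne']; ring
  · rw [div_mul_eq_mul_div, eq_div_iff hD2.ne']; ring

/-- All parameters in the fundamental interval are good. -/
theorem good_all : ∀ t : ℝ, -5/4 ≤ t → t ≤ 4/5 → Good t := by
  intro t h1 h2
  rcases le_total t (-4/5) with a1 | a1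
  · exact good_J0 h1 a1
  rcases le_total t (-17/30) with a2 | a2
  · exact good_gap0 a1 a2
  rcases le_total t (-7/60) with a3 | a3
  · exact good_J1 a2 a3
  rcases le_total t (7/60) with a4 | a4
  · exact good_gap1 a3 a4
  rcases le_total t (17/30) with a5 | a5
  · exact good_J2 a4 a5
  · exact good_gap2 a5 h2

end Pool.Agent.R957.CP
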