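import Pool.Agent.R957.CP.Defs

set_option autoImplicit false

namespace Pool.Agent.R957.CP

open Set

/-- mirror symmetry -/
theorem InK.mirror {X Y Z : ℝ} (h : InK X Y Z) : InK (-X) Y Z where
  l0 A h1 h2 := by
    have := h.l2 (-A-41/20) (by linarith) (by linarith)
    nlinarith [this]
  l1 m h1 h2 := by
    have := h.l1 (-m) (by linarith) (by linarith)
    nlinarith [this]
  l2 A h1 h2 := by
    have := h.l0 (-A-41/20) (by linarith) (by linarith)
    nlinarith [this]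
  l3 v h1 h2 := by
    have := h.l5 v h1 h2
    nlinarith [this]
  l5 v h1 h2 := by
    have := h.l3 v h1 h2
    nlinarith [this]
  top m h1 h2 := by
    have := h.top (-m) (by linarith) (by linarith)
    nlinarith [this]

theorem f0_right {X Y A : ℝ} (h : -11/24 ≤ X) (hY : -11/12*X-7/75 ≤ Y) (h2 : A ≤ -4/5) :
    (2*A+41/60)*X - A*(A+41/60)*1 ≤ Y := by
  nlinarith [mul_nonneg (sub_nonneg.2 h2) (show (0:ℝ) ≤ 2*X+4/5-A-41/60 by linarith)]

theorem f0_left {X Y A : ℝ} (h : X ≤ -109/120) (hY : -109/60*X-17/24 ≤ Y) (h1 : -5/4 ≤ A) :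
    (2*A+41/60)*X - A*(A+41/60)*1 ≤ Y := by
  nlinarith [mul_nonneg (sub_nonneg.2 h1) (show (0:ℝ) ≤ -(2*X+5/4-A-41/60) by linarith)]

theorem f2_right {X Y A : ℝ} (h : 109/120 ≤ X) (hY : 109/60*X-17/24 ≤ Y) (h2 : A ≤ -4/5) :
    (2*A+41/12)*X - (A+41/30)*(A+41/20)*1 ≤ Y := by
  nlinarith [mul_nonneg (sub_nonneg.2 h2) (show (0:ℝ) ≤ 2*X+4/5-A-41/12 by linarith)]

theorem f2_left {X Y A : ℝ} (h : X ≤ 11/24) (hY : 11/12*X-7/75 ≤ Y) (h1 : -5/4 ≤ A) :
    (2*A+41/12)*X - (A+41/30)*(A+41/20)*1 ≤ Y := by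
  nlinarith [mul_nonneg (sub_nonneg.2 h1) (show (0:ℝ) ≤ -(2*X+5/4-A-41/12) by linarith)]

theorem f1_right {X Y m : ℝ} (h : 41/120 ≤ X) (hY : 9/20*X+119/1800 ≤ Y) (h1 : -9/40 ≤ m)
    (h2 : m ≤ 9/40) :
    2*m*(1681/1600-m^2)*X - (1681/1800 - (1681/1600-m^2))*1 ≤ (1681/1600-m^2)^2*Y := by
  have hm2 : m^2 ≤ 81/1600 := by nlinarith
  have hq : (1:ℝ) ≤ 1681/1600-m^2 := by linarith
  have e1 : (1681/1600-m^2)^2*(9/20*X+119/1800) ≤ (1681/1600-m^2)^2*Y :=
    mul_le_mul_of_nonneg_left hY (sq_nonneg _)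
  refine le_trans ?_ e1
  have e2 : 0 ≤ (1681/1600-m^2)*(9/20*(1681/1600-m^2)-2*m)*(X-41/120) := by
    apply mul_nonneg
    · apply mul_nonneg (by linarith)
      nlinarith
    · linarith
  have e3 : 0 ≤ (9/40-m)*(85981469/153600000-8097377/11520000*m-70349/96000*m^2-1583/7200*m^3) := by
    apply mul_nonneg (by linarith)
    nlinarith [mul_nonneg (sub_nonneg.2 h2) (sq_nonneg m), sq_nonneg m]
  nlinarith [e2, e3]

theorem f1_left {X Y m : ℝ} (h : X ≤ -41/120) (hY : -9/20*X+119/1800 ≤ Y) (h1 : -9/40 ≤ m)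
    (h2 : m ≤ 9/40) :
    2*m*(1681/1600-m^2)*X - (1681/1800 - (1681/1600-m^2))*1 ≤ (1681/1600-m^2)^2*Y := by
  have := f1_right (X := -X) (Y := Y) (m := -m) (by linarith) (by linarith) (by linarith)
    (by linarith)
  nlinarith [this]

theorem f3_left {X Y v : ℝ} (h : X ≤ 205/218) (hY : 218/85*X-24/17 ≤ Y) (h1 : -17/30 ≤ v)
    (h2 : v ≤ -7/60) :
    0 ≤ -v*Y + (2*v^2+41/20*v-1681/1800)*X + (-v^3-41/20*v^2+68921/54000)*1 := by
  have e0 : 0 ≤ -v*(Y-(218/85*X-24/17)) := mul_nonneg (by linarith) (by linarith)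
  have e1 : 0 ≤ (v+17/30)*((1681/1020-2*v)*(205/218-X)) := by
    apply mul_nonneg (by linarith) (mul_nonneg (by linarith) (by linarith))
  have e2 : 0 ≤ (v+17/30)*((2*v-1681/1020)*(205/218)-(v^2-17/30*v+41/20*v-68921/30600)) := by
    apply mul_nonneg (by linarith)
    nlinarith
  nlinarith [e0, e1, e2]

theorem f3_right {X Y v : ℝ} (h : 2460/1583 ≤ X) (hY : 275/28*X-75/7 ≤ Y) (h1 : -17/30 ≤ v)
    (h2 : v ≤ -7/60) :
    0 ≤ -v*Y + (2*v^2+41/20*v-1681/1800)*X + (-v^3-41/20*v^2+68921/54000)*1 := by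
  have e0 : 0 ≤ -v*(Y-(275/28*X-75/7)) := mul_nonneg (by linarith) (by linarith)
  have e1 : 0 ≤ (-7/60-v)*((1681/210-2*v)*(X-2460/1583)) := by
    apply mul_nonneg (by linarith) (mul_nonneg (by linarith) (by linarith))
  have e2 : 0 ≤ (-7/60-v)*(-((2*v-1681/210)*(2460/1583)-(v^2-7/60*v+41/20*v-68921/6300))) := by
    apply mul_nonneg (by linarith)
    nlinarith
  nlinarith [e0, e1, e2]

theorem f5_right {X Y v : ℝ} (h : -205/218 ≤ X) (hY : -218/85*X-24/17 ≤ Y) (h1 : -17/30 ≤ v)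
    (h2 : v ≤ -7/60) :
    0 ≤ -v*Y - (2*v^2+41/20*v-1681/1800)*X + (-v^3-41/20*v^2+68921/54000)*1 := by
  have := f3_left (X := -X) (Y := Y) (by linarith) (by linarith) h1 h2
  nlinarith [this]

theorem f5_left {X Y v : ℝ} (h : X ≤ -2460/1583) (hY : -275/28*X-75/7 ≤ Y) (h1 : -17/30 ≤ v)
    (h2 : v ≤ -7/60) :
    0 ≤ -v*Y - (2*v^2+41/20*v-1681/1800)*X + (-v^3-41/20*v^2+68921/54000)*1 := by
  have := f3_right (X := -X) (Y := Y) (by linarith) (by linarith) h1 h2
  nlinarith [this]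

theorem lin_le {α β X R M : ℝ} (hX : -R ≤ X) (hX' : X ≤ R) (h1 : α*R+β ≤ M) (h2 : -(α*R)+β ≤ M) :
    α*X+β ≤ M := by
  rcases le_total 0 α with h | h
  · nlinarith
  · nlinarith

/-- points high above: all lower families hold -/
theorem lower_of_high {X Y : ℝ} (hX : -2460/1583 ≤ X) (hX' : X ≤ 2460/1583) (hY : 7200/1583 ≤ Y) :
    (∀ A : ℝ, -5/4 ≤ A → A ≤ -4/5 → (2*A+41/60)*X - A*(A+41/60)*1 ≤ Y) ∧
    (∀ m : ℝ, -9/40 ≤ m → m ≤ 9/40 →
      2*m*(1681/1600-m^2)*X - (1681/1800 - (1681/1600-m^2))*1 ≤ (1681/1600-m^2)^2*Y) ∧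
    (∀ A : ℝ, -5/4 ≤ A → A ≤ -4/5 → (2*A+41/12)*X - (A+41/30)*(A+41/20)*1 ≤ Y) ∧
    (∀ v : ℝ, -17/30 ≤ v → v ≤ -7/60 →
      0 ≤ -v*Y + (2*v^2+41/20*v-1681/1800)*X + (-v^3-41/20*v^2+68921/54000)*1) ∧
    (∀ v : ℝ, -17/30 ≤ v → v ≤ -7/60 →
      0 ≤ -v*Y - (2*v^2+41/20*v-1681/1800)*X + (-v^3-41/20*v^2+68921/54000)*1) := by
  refine ⟨?_, ?_, ?_, ?_, ?_⟩
  · intro A h1 h2
    have a := f0_right (X := 2460/1583) (Y := 7200/1583) (A := A) (by norm_num) (by norm_num) h2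
    have b := f0_left (X := -(2460/1583)) (Y := 7200/1583) (A := A) (by norm_num) (by norm_num) h1
    have := lin_le (α := 2*A+41/60) (β := -(A*(A+41/60))) (R := 2460/1583) (M := 7200/1583)
      (X := X) (by linarith) hX' (by linarith) (by linarith)
    linarith
  · intro m h1 h2
    have a := f1_right (X := 2460/1583) (Y := 7200/1583) (m := m) (by norm_num) (by norm_num) h1 h2
    have b := f1_left (X := -(2460/1583)) (Y := 7200/1583) (m := m) (by norm_num) (by norm_num)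
      h1 h2
    have := lin_le (α := 2*m*(1681/1600-m^2)) (β := - (1681/1800 - (1681/1600-m^2)))
      (R := 2460/1583) (M := (1681/1600-m^2)^2*(7200/1583))
      (X := X) (by linarith) hX' (by linarith) (by linarith)
    have e1 : (1681/1600-m^2)^2*(7200/1583) ≤ (1681/1600-m^2)^2*Y :=
      mul_le_mul_of_nonneg_left hY (sq_nonneg _)
    linarith
  · intro A h1 h2
    have a := f2_right (X := 2460/1583) (Y := 7200/1583) (A := A) (by norm_num) (by norm_num) h2
    have b := f2_left (X := -(2460/1583)) (Y := 7200/1583) (A := A) (by norm_num) (by norm_num) h1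
    have := lin_le (α := 2*A+41/12) (β := -((A+41/30)*(A+41/20))) (R := 2460/1583)
      (M := 7200/1583) (X := X) (by linarith) hX' (by linarith) (by linarith)
    linarith
  · intro v h1 h2
    have a := f3_right (X := 2460/1583) (Y := 7200/1583) (v := v) (by norm_num) (by norm_num) h1 h2
    have b := f3_left (X := -(2460/1583)) (Y := 7200/1583) (v := v) (by norm_num) (by norm_num)
      h1 h2
    have := lin_le (α := -(2*v^2+41/20*v-1681/1800)) (β := -(-v^3-41/20*v^2+68921/54000))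
      (R := 2460/1583) (M := -v*(7200/1583))
      (X := X) (by linarith) hX' (by linarith) (by linarith)
    have e1 : -v*(7200/1583) ≤ -v*Y := mul_le_mul_of_nonneg_left hY (by linarith)
    linarith
  · intro v h1 h2
    have a := f3_right (X := 2460/1583) (Y := 7200/1583) (v := v) (by norm_num) (by norm_num) h1 h2
    have b := f3_left (X := -(2460/1583)) (Y := 7200/1583) (v := v) (by norm_num) (by norm_num)
      h1 h2
    have := lin_le (α := (2*v^2+41/20*v-1681/1800)) (β := -(-v^3-41/20*v^2+68921/54000))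
      (R := 2460/1583) (M := -v*(7200/1583))
      (X := X) (by linarith) hX' (by linarith) (by linarith)
    have e1 : -v*(7200/1583) ≤ -v*Y := mul_le_mul_of_nonneg_left hY (by linarith)
    linarith

theorem top_of_low {X Y : ℝ} (hX : -2460/1583 ≤ X) (hX' : X ≤ 2460/1583) (hY : Y ≤ 7200/1583)
    (m : ℝ) (h1 : -9/40 ≤ m) (h2 : m ≤ 9/40) : (1681/14400-m^2)*Y ≤ 1+2*m*X := by
  have hm2 : m^2 ≤ 81/1600 := by nlinarith
  have e1 : (1681/14400-m^2)*Y ≤ (1681/14400-m^2)*(7200/1583) :=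
    mul_le_mul_of_nonneg_left hY (by linarith)
  refine le_trans e1 ?_
  rcases le_total 0 m with h | h
  · have : -(m*(2460/1583)) ≤ m*X := by nlinarith
    nlinarith [mul_nonneg (sub_nonneg.2 h2) (show (0:ℝ) ≤ 11/24-m by linarith)]
  · have : m*(2460/1583) ≤ m*X := by nlinarith
    nlinarith [mul_nonneg (show (0:ℝ) ≤ m+9/40 by linarith) (show (0:ℝ) ≤ 11/24+m by linarith)]

/-- contact points of the family `l0` -/
theorem contact0 {A : ℝ} (h1 : -5/4 ≤ A) (h2 : A ≤ -4/5) :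
    InK (A+41/120) ((A+41/120)^2+1681/14400) 1 := by
  obtain ⟨X, hX⟩ : ∃ X, X = A+41/120 := ⟨_, rfl⟩
  rw [← hX]
  have x1 : -109/120 ≤ X := by linarith
  have x2 : X ≤ -11/24 := by linarith
  constructor
  · intro B _ _
    nlinarith [sq_nonneg (X-B-41/120)]
  · intro m k1 k2
    exact f1_left (by linarith) (by nlinarith) k1 k2
  · intro B k1 k2
    exact f2_left (by linarith) (by nlinarith) k1
  · intro v k1 k2
    exact f3_left (by linarith) (by nlinarith) k1 k2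
  · intro v k1 k2
    exact f5_right (by linarith) (by nlinarith) k1 k2
  · intro m k1 k2
    exact top_of_low (by linarith) (by linarith) (by nlinarith) m k1 k2

/-- contact points of the family `l2` -/
theorem contact2 {A : ℝ} (h1 : -5/4 ≤ A) (h2 : A ≤ -4/5) :
    InK (A+41/24) ((A+41/24)^2+1681/14400) 1 := by
  have := (contact0 (A := -A-41/20) (by linarith) (by linarith)).mirror
  convert this using 1
  · ring
  · ring

/-- contact points of the family `top` -/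
theorem contactT {m : ℝ} (h1 : -9/40 ≤ m) (h2 : m ≤ 9/40) :
    InK (-m/(m^2+1681/14400)) (1/(m^2+1681/14400)) 1 := by
  have hm2 : m^2 ≤ 81/1600 := by nlinarith
  have hD : 0 < m^2+1681/14400 := by positivity
  have x1 : -2460/1583 ≤ -m/(m^2+1681/14400) := by
    rw [le_div_iff₀ hD]; nlinarith [sq_nonneg (m - 1583/4920)]
  have x2 : -m/(m^2+1681/14400) ≤ 2460/1583 := by
    rw [div_le_iff₀ hD]; nlinarith [sq_nonneg (m + 1583/4920)]
  have y1 : 7200/1583 ≤ 1/(m^2+1681/14400) := by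
    rw [le_div_iff₀ hD]; nlinarith
  obtain ⟨a0, a1, a2, a3, a5⟩ := lower_of_high x1 x2 y1
  refine ⟨a0, a1, a2, a3, a5, ?_⟩
  intro k k1 k2
  have e : 1 + 2*k*(-m/(m^2+1681/14400)) - (1681/14400-k^2)*(1/(m^2+1681/14400)) =
    (m-k)^2/(m^2+1681/14400) := by
    field_simp; ring
  have : 0 ≤ (m-k)^2/(m^2+1681/14400) := by positivity
  linarith

/-- corners -/
theorem corner0 : InK (-41/120) (1583/7200) 1 := by
  constructor
  · intro A h1 h2; exact f0_right (by norm_num) (by norm_num) h2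
  · intro m h1 h2; exact f1_left (by norm_num) (by norm_num) h1 h2
  · intro A h1 h2; exact f2_left (by norm_num) (by norm_num) h1
  · intro v h1 h2; exact f3_left (by norm_num) (by norm_num) h1 h2
  · intro v h1 h2; exact f5_right (by norm_num) (by norm_num) h1 h2
  · intro m h1 h2; exact top_of_low (by norm_num) (by norm_num) (by norm_num) m h1 h2

theorem corner1 : InK (41/120) (1583/7200) 1 := by
  have := corner0.mirror
  norm_num at this ⊢
  exact this

theorem corner2 : InK (205/218) 1 1 := by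
  constructor
  · intro A h1 h2; exact f0_right (by norm_num) (by norm_num) h2
  · intro m h1 h2; exact f1_right (by norm_num) (by norm_num) h1 h2
  · intro A h1 h2; exact f2_right (by norm_num) (by norm_num) h2
  · intro v h1 h2; exact f3_left (by norm_num) (by norm_num) h1 h2
  · intro v h1 h2; exact f5_right (by norm_num) (by norm_num) h1 h2
  · intro m h1 h2; exact top_of_low (by norm_num) (by norm_num) (by norm_num) m h1 h2

theorem corner5 : InK (-205/218) 1 1 := by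
  have := corner2.mirror
  norm_num at this ⊢
  exact this

theorem corner3 : InK (2460/1583) (7200/1583) 1 := by
  obtain ⟨a0, a1, a2, a3, a5⟩ := lower_of_high (X := 2460/1583) (Y := 7200/1583)
    (by norm_num) (by norm_num) (by norm_num)
  refine ⟨a0, a1, a2, a3, a5, ?_⟩
  intro m h1 h2; exact top_of_low (by norm_num) (by norm_num) (by norm_num) m h1 h2

theorem corner4 : InK (-2460/1583) (7200/1583) 1 := by
  have := corner3.mirror
  norm_num at this ⊢
  exact this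

/-- contact points of the family `l3` -/
theorem contact3 {v : ℝ} (h1 : -17/30 ≤ v) (h2 : v ≤ -7/60) :
    ∃ X Y : ℝ, InK X Y 1 ∧
      0 = -v*Y + (2*v^2+41/20*v-1681/1800)*X + (-v^3-41/20*v^2+68921/54000) := by
  have hD : 0 < 2*(v^2+1681/3600) := by positivity
  obtain ⟨X, hX⟩ : ∃ X, X = (2*v^3+41/20*v^2+68921/54000)/(2*(v^2+1681/3600)) := ⟨_, rfl⟩
  have hX' : X*(2*(v^2+1681/3600)) = 2*v^3+41/20*v^2+68921/54000 := by
    rw [hX]; field_simp
  obtain ⟨w, hw⟩ : ∃ w, w = 2*X-41/20-2*v := ⟨_, rfl⟩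
  obtain ⟨Y, hY⟩ : ∃ Y, Y = 41/20*X+2*v*w+v^2 := ⟨_, rfl⟩
  have x1 : 205/218 ≤ X := by
    rw [hX, le_div_iff₀ hD]
    nlinarith [mul_nonneg (show (0:ℝ) ≤ v+17/30 by linarith) (show (0:ℝ) ≤ -7/60-v by linarith),
      mul_nonneg (mul_nonneg (show (0:ℝ) ≤ v+17/30 by linarith)
        (show (0:ℝ) ≤ -7/60-v by linarith)) (show (0:ℝ) ≤ v+17/30 by linarith)]
  have x2 : X ≤ 2460/1583 := by
    rw [hX, div_le_iff₀ hD]
    nlinarith [mul_nonneg (show (0:ℝ) ≤ v+17/30 by linarith) (show (0:ℝ) ≤ -7/60-v by linarith),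
      mul_nonneg (mul_nonneg (show (0:ℝ) ≤ v+17/30 by linarith)
        (show (0:ℝ) ≤ -7/60-v by linarith)) (show (0:ℝ) ≤ v+17/30 by linarith)]
  have hw0 : 0 < w := by rw [hw]; linarith
  have key : v^2*w+1681/1800*X = 68921/54000 := by
    rw [hw]; nlinarith [hX']
  have F1 : ∀ u : ℝ, u ≤ -7/60 →
      0 ≤ -u*Y + (2*u^2+41/20*u-1681/1800)*X + (-u^3-41/20*u^2+68921/54000)*1 := by
    intro u hu
    have e : -u*Y + (2*u^2+41/20*u-1681/1800)*X + (-u^3-41/20*u^2+68921/54000)*1 =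
        (u-v)^2*(w-u) := by
      rw [hY]
      have hX2 : X = (w+41/20+2*v)/2 := by rw [hw]; ring
      have k2 : v^2*w = 68921/54000 - 1681/1800*X := by linarith
      have : (u-v)^2*(w-u) = u^2*w-u^3-2*u*v*w+2*u^2*v+v^2*w-v^2*u := by ring
      rw [this, k2, hX2]
      ring
    rw [e]
    exact mul_nonneg (sq_nonneg _) (by linarith)
  have E : -v*Y + (2*v^2+41/20*v-1681/1800)*X + (-v^3-41/20*v^2+68921/54000)*1 = 0 := by
    rw [hY]
    have hX2 : X = (w+41/20+2*v)/2 := by rw [hw]; ring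
    have k2 : v^2*w = 68921/54000 - 1681/1800*X := by linarith
    nlinarith [k2, hX2, key]
  have y1 : 218/85*X-24/17 ≤ Y := by
    have := F1 (-17/30) (by norm_num)
    linarith
  have y2 : Y ≤ 7200/1583 := by
    obtain ⟨_, _, _, a3, _⟩ := lower_of_high (X := X) (Y := 7200/1583)
      (by linarith) x2 (by norm_num)
    have := a3 v h1 h2
    have h3 : 0 ≤ (-v)*(7200/1583-Y) := by linarith
    by_contra hc
    push Not at hc
    nlinarith
  refine ⟨X, Y, ⟨?_, ?_, ?_, ?_, ?_, ?_⟩, by linarith⟩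
  · intro A k1 k2; exact f0_right (by linarith) (by linarith) k2
  · intro m k1 k2; exact f1_right (by linarith) (by linarith) k1 k2
  · intro A k1 k2; exact f2_right (by linarith) (by linarith) k2
  · intro u k1 k2; exact F1 u k2
  · intro u k1 k2; exact f5_right (by linarith) (by linarith) k1 k2
  · intro m k1 k2; exact top_of_low (by linarith) x2 y2 m k1 k2

/-- contact points of the family `l5` -/
theorem contact5 {v : ℝ} (h1 : -17/30 ≤ v) (h2 : v ≤ -7/60) :
    ∃ X Y : ℝ, InK X Y 1 ∧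
      0 = -v*Y - (2*v^2+41/20*v-1681/1800)*X + (-v^3-41/20*v^2+68921/54000) := by
  obtain ⟨X, Y, hK, e⟩ := contact3 h1 h2
  exact ⟨-X, Y, hK.mirror, by linarith⟩

/-- contact points of the family `l1` -/
theorem contact1 {m : ℝ} (h1 : -9/40 ≤ m) (h2 : m ≤ 9/40) :
    ∃ X Y : ℝ, InK X Y 1 ∧
      2*m*(1681/1600-m^2)*X - (1681/1800 - (1681/1600-m^2)) = (1681/1600-m^2)^2*Y := by
  have hm2 : m^2 ≤ 81/1600 := by nlinarith
  have hm0 : 0 ≤ m^2 := sq_nonneg m
  have hq : (1:ℝ) ≤ 1681/1600-m^2 := by linarith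
  have hD : 0 < (1681/1600-m^2)*(1681/1600+m^2) := by
    apply mul_pos <;> linarith
  have hD1 : (1:ℝ) ≤ (1681/1600-m^2)*(1681/1600+m^2) := by nlinarith
  obtain ⟨X, hX⟩ : ∃ X, X = m*(1681/900-(1681/1600-m^2))/((1681/1600-m^2)*(1681/1600+m^2)) :=
    ⟨_, rfl⟩
  obtain ⟨Y, hY⟩ : ∃ Y, Y = (2*m*(1681/1600-m^2)*X - (1681/1800 - (1681/1600-m^2)))/
    (1681/1600-m^2)^2 := ⟨_, rfl⟩
  have hX' : X*((1681/1600-m^2)*(1681/1600+m^2)) = m*(1681/900-(1681/1600-m^2)) := by
    rw [hX]; exact div_mul_cancel₀ _ hD.ne'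
  have hY' : (1681/1600-m^2)^2*Y = 2*m*(1681/1600-m^2)*X - (1681/1800 - (1681/1600-m^2)) := by
    rw [hY]
    have : (1681/1600-m^2)^2 ≠ 0 := by positivity
    exact mul_div_cancel₀ _ this
  have x1 : -1/5 ≤ X := by
    rw [hX, le_div_iff₀ hD]; nlinarith
  have x2 : X ≤ 1/5 := by
    rw [hX, div_le_iff₀ hD]; nlinarith
  have hmX : 0 ≤ m*X := by
    have h3 : (m*X)*((1681/1600-m^2)*(1681/1600+m^2)) = m^2*(1681/900-(1681/1600-m^2)) := by
      linear_combination m*hX'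
    have h4 : 0 ≤ (m*X)*((1681/1600-m^2)*(1681/1600+m^2)) := by
      rw [h3]; apply mul_nonneg hm0; linarith
    exact nonneg_of_mul_nonneg_left h4 hD
  have hmX2 : m*X ≤ 9/200 := by nlinarith
  have hq2 : 0 < (1681/1600-m^2)^2 := by positivity
  have y0 : 0 ≤ Y := by
    have h3 : 0 ≤ (1681/1600-m^2)^2*Y := by
      rw [hY']
      nlinarith [mul_nonneg hmX (show (0:ℝ) ≤ 1681/1600-m^2 by linarith)]
    exact nonneg_of_mul_nonneg_right h3 hq2
  have y2 : Y ≤ 1/5 := by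
    have h3 : (1681/1600-m^2)^2*Y ≤ (1681/1600-m^2)^2*(1/5) := by
      rw [hY']
      nlinarith [mul_nonneg (show (0:ℝ) ≤ 9/200-m*X by linarith)
        (show (0:ℝ) ≤ 1681/1600-m^2 by linarith)]
    exact le_of_mul_le_mul_left h3 hq2
  have hq0 : (1681/1600-m^2) ≠ 0 := by linarith
  have K0 : (1681/1600)^2*Y+1681/1800-1681/1600 - m^2*(1-1681/800*Y+4*m*X+3*m^2*Y) = 0 := by
    have : (1681/1600-m^2)*((1681/1600)^2*Y+1681/1800-1681/1600 -
        m^2*(1-1681/800*Y+4*m*X+3*m^2*Y)) = 0 := by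
      linear_combination (1681/1600+3*m^2)*hY' + 2*m*hX'
    exact (mul_eq_zero.1 this).resolve_left hq0
  have K1 : X*(6*m^2-1681/800)-4*m*(1681/1600-m^2)*Y+2*m = 0 := by
    have : (1681/1600-m^2)*(X*(6*m^2-1681/800)-4*m*(1681/1600-m^2)*Y+2*m) = 0 := by
      linear_combination (-4*m)*hY' + (-2)*hX'
    exact (mul_eq_zero.1 this).resolve_left hq0
  have F1 : ∀ k : ℝ, -9/40 ≤ k → k ≤ 9/40 →
      2*k*(1681/1600-k^2)*X - (1681/1800 - (1681/1600-k^2))*1 ≤ (1681/1600-k^2)^2*Y := by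
    intro k k1 k2
    have e : (1681/1600-k^2)^2*Y - (2*k*(1681/1600-k^2)*X - (1681/1800 - (1681/1600-k^2))*1) =
        (k-m)^2*(Y*k^2+(2*X+2*m*Y)*k+(1-1681/800*Y+4*m*X+3*m^2*Y)) := by
      linear_combination k*K1 + K0
    have : 0 ≤ Y*k^2+(2*X+2*m*Y)*k+(1-1681/800*Y+4*m*X+3*m^2*Y) := by
      have b1 : -(9/200) ≤ X*k := by nlinarith
      have b2 : -(81/1600) ≤ m*k := by nlinarith
      have b3 : -(81/8000) ≤ m*k*Y := by nlinarith
      have b4 : 0 ≤ Y*k^2 := by positivity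
      have b5 : 0 ≤ m^2*Y := by positivity
      nlinarith
    have := mul_nonneg (sq_nonneg (k-m)) this
    linarith
  have y3 : 9/20*X+119/1800 ≤ Y := by
    have := F1 (9/40) (by norm_num) (by norm_num)
    linarith
  have y4 : -9/20*X+119/1800 ≤ Y := by
    have := F1 (-9/40) (by norm_num) (by norm_num)
    linarith
  refine ⟨X, Y, ⟨?_, ?_, ?_, ?_, ?_, ?_⟩, by linarith⟩
  · intro A k1 k2; exact f0_right (by linarith) (by linarith) k2
  · intro k k1 k2; exact F1 k k1 k2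
  · intro A k1 k2; exact f2_left (by linarith) (by linarith) k1
  · intro u k1 k2; exact f3_left (by linarith) (by linarith) k1 k2
  · intro u k1 k2; exact f5_right (by linarith) (by linarith) k1 k2
  · intro k k1 k2; exact top_of_low (by linarith) (by linarith) (by linarith) k k1 k2

end Pool.Agent.R957.CP
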