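import Mathlib

/-!
# Central projections from antipodal points (MP_39a3b1, plane case): basic definitions

We use the parabola chart of the projective plane: a point `y` of the disc corresponds to the
homogeneous triple `(X, Y, Z) = (y 1, 1 - y 0, 1 + y 0)`; the unit circle is `X^2 = Y Z`, and the
point of the circle with parameter `t` is `(t, t^2, 1)`.  The antipodal map is
`(X, Y, Z) ↦ (-X, Z, Y)`, `t ↦ -1/t`.
-/

set_option autoImplicit false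

namespace Pool.Agent.R957.CP

open Set

/-- The six families of closed half planes defining the body (homogeneous chart). -/
structure InK (X Y Z : ℝ) : Prop where
  l0 : ∀ A : ℝ, -5/4 ≤ A → A ≤ -4/5 → (2*A+41/60)*X - A*(A+41/60)*Z ≤ Y
  l1 : ∀ m : ℝ, -9/40 ≤ m → m ≤ 9/40 →
    2*m*(1681/1600-m^2)*X - (1681/1800 - (1681/1600-m^2))*Z ≤ (1681/1600-m^2)^2*Y
  l2 : ∀ A : ℝ, -5/4 ≤ A → A ≤ -4/5 → (2*A+41/12)*X - (A+41/30)*(A+41/20)*Z ≤ Y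
  l3 : ∀ v : ℝ, -17/30 ≤ v → v ≤ -7/60 →
    0 ≤ -v*Y + (2*v^2+41/20*v-1681/1800)*X + (-v^3-41/20*v^2+68921/54000)*Z
  l5 : ∀ v : ℝ, -17/30 ≤ v → v ≤ -7/60 →
    0 ≤ -v*Y - (2*v^2+41/20*v-1681/1800)*X + (-v^3-41/20*v^2+68921/54000)*Z
  top : ∀ m : ℝ, -9/40 ≤ m → m ≤ 9/40 → (1681/14400-m^2)*Y ≤ Z+2*m*X

/-- The width function from the circle point with parameter `t` and from its antipode: there are
bounds `a ≤ w ≤ b` (attained) and `a' ≤ w' ≤ b'` (attained) with the same length. -/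
def Good (t : ℝ) : Prop :=
  ∃ a b a' b' : ℝ, b - a = b' - a' ∧
    (∀ X Y Z : ℝ, InK X Y Z → a * (Y - 2*t*X + t^2*Z) ≤ X - t*Z) ∧
    (∀ X Y Z : ℝ, InK X Y Z → X - t*Z ≤ b * (Y - 2*t*X + t^2*Z)) ∧
    (∀ X Y Z : ℝ, InK X Y Z → a' * (Z + 2*t*X + t^2*Y) ≤ -(X + t*Y)) ∧
    (∀ X Y Z : ℝ, InK X Y Z → -(X + t*Y) ≤ b' * (Z + 2*t*X + t^2*Y)) ∧
    (∃ X Y : ℝ, InK X Y 1 ∧ a * (Y - 2*t*X + t^2) = X - t) ∧
    (∃ X Y : ℝ, InK X Y 1 ∧ X - t = b * (Y - 2*t*X + t^2)) ∧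
    (∃ X Y : ℝ, InK X Y 1 ∧ a' * (1 + 2*t*X + t^2*Y) = -(X + t*Y)) ∧
    (∃ X Y : ℝ, InK X Y 1 ∧ -(X + t*Y) = b' * (1 + 2*t*X + t^2*Y))

/-- The body in the disc. -/
def Kbody : Set (EuclideanSpace ℝ (Fin 2)) := {y | InK (y 1) (1 - y 0) (1 + y 0)}

/-- The cone with apex `x` generated by `K`. -/
def cone {n : ℕ} (K : Set (EuclideanSpace ℝ (Fin n))) (x : EuclideanSpace ℝ (Fin n)) :
    Set (EuclideanSpace ℝ (Fin n)) :=
  {z | ∃ l : ℝ, 0 ≤ l ∧ ∃ y ∈ K, z = x + l • (y - x)}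

/-- The central projection of `K` from `x` onto the hyperplane `x^⊥`. -/
def proj {n : ℕ} (K : Set (EuclideanSpace ℝ (Fin n))) (x : EuclideanSpace ℝ (Fin n)) :
    Set (EuclideanSpace ℝ (Fin n)) :=
  cone K x ∩ {z | inner ℝ z x = 0}

end Pool.Agent.R957.CP
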