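import Pool.Agent.R957.CP.Defs

/-! MP_39a3b1: the plane part (convex body, projections, translation). -/

set_option autoImplicit false

namespace Pool.Agent.R957.CP

open Set

abbrev E2 := EuclideanSpace ℝ (Fin 2)

lemma InK.add {X Y Z X' Y' Z' : ℝ} (h : InK X Y Z) (h' : InK X' Y' Z') :
    InK (X + X') (Y + Y') (Z + Z') where
  l0 A h1 h2 := by have e := h.l0 A h1 h2; have e' := h'.l0 A h1 h2; linarith
  l1 A h1 h2 := by have e := h.l1 A h1 h2; have e' := h'.l1 A h1 h2; linarith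
  l2 A h1 h2 := by have e := h.l2 A h1 h2; have e' := h'.l2 A h1 h2; linarith
  l3 A h1 h2 := by have e := h.l3 A h1 h2; have e' := h'.l3 A h1 h2; linarith
  l5 A h1 h2 := by have e := h.l5 A h1 h2; have e' := h'.l5 A h1 h2; linarith
  top A h1 h2 := by have e := h.top A h1 h2; have e' := h'.top A h1 h2; linarith

lemma InK.smul {X Y Z c : ℝ} (hc : 0 ≤ c) (h : InK X Y Z) : InK (c * X) (c * Y) (c * Z) where
  l0 A h1 h2 := by have e := mul_le_mul_of_nonneg_left (h.l0 A h1 h2) hc; linarith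
  l1 A h1 h2 := by have e := mul_le_mul_of_nonneg_left (h.l1 A h1 h2) hc; linarith
  l2 A h1 h2 := by have e := mul_le_mul_of_nonneg_left (h.l2 A h1 h2) hc; linarith
  l3 A h1 h2 := by have e := mul_nonneg hc (h.l3 A h1 h2); linarith
  l5 A h1 h2 := by have e := mul_nonneg hc (h.l5 A h1 h2); linarith
  top A h1 h2 := by have e := mul_le_mul_of_nonneg_left (h.top A h1 h2) hc; linarith

lemma chord {X Y Z s t : ℝ} (hZ : 0 < Z) (h : (s + t) * X - s * t * Z ≤ Y) (h1 : s * Z < X)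
    (h2 : X < t * Z) : X ^ 2 < Y * Z := by
  have h3 : 0 < (X - s * Z) * (t * Z - X) := mul_pos (by linarith) (by linarith)
  have h4 := mul_le_mul_of_nonneg_right h hZ.le
  linarith

theorem InK.inside {X Y Z : ℝ} (h : InK X Y Z) (hYZ : Y + Z = 2) : 0 < Z ∧ X ^ 2 < Y * Z := by
  have hZ : 0 < Z := by
    have := h.top 0 (by norm_num) (by norm_num)
    norm_num at this
    linarith
  refine ⟨hZ, ?_⟩
  have a1 := h.l0 (-5/4) (by norm_num) (by norm_num)
  have a2 := h.l0 (-4/5) (by norm_num) (by norm_num)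
  have b1 := h.l2 (-5/4) (by norm_num) (by norm_num)
  have b2 := h.l2 (-4/5) (by norm_num) (by norm_num)
  have c1 := h.l1 (-9/40) (by norm_num) (by norm_num)
  have c2 := h.l1 (9/40) (by norm_num) (by norm_num)
  have d1 := h.l3 (-17/30) (by norm_num) (by norm_num)
  have d2 := h.l3 (-7/60) (by norm_num) (by norm_num)
  have e1 := h.l5 (-17/30) (by norm_num) (by norm_num)
  have e2 := h.l5 (-7/60) (by norm_num) (by norm_num)
  have f1 := h.top (-9/40) (by norm_num) (by norm_num)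
  have f2 := h.top (9/40) (by norm_num) (by norm_num)
  norm_num at a1 a2 b1 b2 c1 c2 d1 d2 e1 e2 f1 f2
  have hb1 : X ≤ 2460 / 1583 * Z := by linarith
  have hb2 : -(2460 / 1583 * Z) ≤ X := by linarith
  by_cases k1 : X < -Z
  · exact chord (s := -30/17) (t := -4/5) hZ (by linarith) (by linarith) (by linarith)
  by_cases k2 : X < -(7/10) * Z
  · exact chord (s := -5/4) (t := -17/30) hZ (by linarith) (by linarith) (by linarith)
  by_cases k3 : X < -(1/3) * Z
  · exact chord (s := -4/5) (t := -7/60) hZ (by linarith) (by linarith) (by linarith)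
  by_cases k4 : X < 0
  · exact chord (s := -17/30) (t := 7/60) hZ (by linarith) (by linarith) (by linarith)
  by_cases k5 : X < (1/3) * Z
  · exact chord (s := -7/60) (t := 17/30) hZ (by linarith) (by linarith) (by linarith)
  by_cases k6 : X < (7/10) * Z
  · exact chord (s := 7/60) (t := 4/5) hZ (by linarith) (by linarith) (by linarith)
  by_cases k7 : X < Z
  · exact chord (s := 17/30) (t := 5/4) hZ (by linarith) (by linarith) (by linarith)
  · exact chord (s := 4/5) (t := 30/17) hZ (by linarith) (by linarith) (by linarith)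

theorem K_convex : Convex ℝ Kbody := by
  intro y hy y' hy' a b ha hb hab
  have h1 := (InK.smul ha hy).add (InK.smul hb hy')
  have e0 : (a • y + b • y') 0 = a * y 0 + b * y' 0 := by simp
  have e1 : (a • y + b • y') 1 = a * y 1 + b * y' 1 := by simp
  show InK ((a • y + b • y') 1) (1 - (a • y + b • y') 0) (1 + (a • y + b • y') 0)
  rw [e0, e1]
  have e2 : 1 - (a * y 0 + b * y' 0) = a * (1 - y 0) + b * (1 - y' 0) := by
    linear_combination -hab
  have e3 : 1 + (a * y 0 + b * y' 0) = a * (1 + y 0) + b * (1 + y' 0) := by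
    linear_combination -hab
  rw [e2, e3]
  exact h1

lemma inner2 (u v : E2) : inner ℝ u v = u 0 * v 0 + u 1 * v 1 := by
  simp [PiLp.inner_apply, Fin.sum_univ_two]
  ring

lemma norm2 (u : E2) : ‖u‖ ^ 2 = u 0 ^ 2 + u 1 ^ 2 := by
  rw [← real_inner_self_eq_norm_sq, inner2]; ring

lemma K_in {y : E2} (hy : y ∈ Kbody) : y 0 ^ 2 + y 1 ^ 2 < 1 := by
  have h := (InK.inside hy (by ring)).2
  nlinarith

theorem K_subset_ball : Kbody ⊆ Metric.ball 0 1 := by
  intro y hy
  rw [mem_ball_zero_iff]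
  have h := K_in hy
  rw [← norm2] at h
  nlinarith [norm_nonneg y]

lemma K_closed : IsClosed Kbody := by
  have key : ∀ (p q r : ℝ), (∀ y ∈ Kbody, 0 ≤ p * (y 1) + q * (1 - y 0) + r * (1 + y 0)) →
      ∀ y ∈ closure Kbody, 0 ≤ p * (y 1) + q * (1 - y 0) + r * (1 + y 0) := by
    intro p q r h y hy
    have hc : IsClosed {y : E2 | 0 ≤ p * (y 1) + q * (1 - y 0) + r * (1 + y 0)} :=
      isClosed_le continuous_const (by fun_prop)
    exact closure_minimal (t := {y : E2 | 0 ≤ p * (y 1) + q * (1 - y 0) + r * (1 + y 0)}) h hc hy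
  apply isClosed_of_closure_subset
  intro y hy
  refine ⟨fun A h1 h2 => ?_, fun A h1 h2 => ?_, fun A h1 h2 => ?_, fun A h1 h2 => ?_,
    fun A h1 h2 => ?_, fun A h1 h2 => ?_⟩
  · have := key (-(2*A+41/60)) 1 (A*(A+41/60)) (fun y hy => by
      have := hy.l0 A h1 h2; linarith) y hy
    linarith
  · have := key (-(2*A*(1681/1600-A^2))) ((1681/1600-A^2)^2) (1681/1800 - (1681/1600-A^2))
      (fun y hy => by have := hy.l1 A h1 h2; linarith) y hy
    linarith
  · have := key (-(2*A+41/12)) 1 ((A+41/30)*(A+41/20)) (fun y hy => by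
      have := hy.l2 A h1 h2; linarith) y hy
    linarith
  · have := key (2*A^2+41/20*A-1681/1800) (-A) (-A^3-41/20*A^2+68921/54000) (fun y hy => by
      have := hy.l3 A h1 h2; linarith) y hy
    linarith
  · have := key (-(2*A^2+41/20*A-1681/1800)) (-A) (-A^3-41/20*A^2+68921/54000) (fun y hy => by
      have := hy.l5 A h1 h2; linarith) y hy
    linarith
  · have := key (2*A) (-(1681/14400-A^2)) 1 (fun y hy => by
      have := hy.top A h1 h2; linarith) y hy
    linarith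

theorem K_compact : IsCompact Kbody :=
  Metric.isCompact_of_isClosed_isBounded K_closed (Metric.isBounded_ball.subset K_subset_ball)

lemma prod_bd {c x C e : ℝ} (hC : 0 ≤ C) (hc1 : -C ≤ c) (hc2 : c ≤ C) (hx1 : -e ≤ x)
    (hx2 : x ≤ e) : -(C * e) ≤ c * x ∧ c * x ≤ C * e := by
  have h := abs_mul c x
  have h1 : |c| ≤ C := abs_le.2 ⟨hc1, hc2⟩
  have h2 : |x| ≤ e := abs_le.2 ⟨hx1, hx2⟩
  have h3 : |c * x| ≤ C * e := by
    rw [h]; exact mul_le_mul h1 h2 (abs_nonneg _) hC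
  exact abs_le.1 h3

lemma small_InK {X Y Z : ℝ} (hX1 : -(1/100) ≤ X) (hX2 : X ≤ 1/100) (hY1 : 99/100 ≤ Y)
    (hY2 : Y ≤ 101/100) (hZ1 : 99/100 ≤ Z) (hZ2 : Z ≤ 101/100) : InK X Y Z where
  l0 A h1 h2 := by
    have h3 := (prod_bd (c := 2*A+41/60) (C := 5/2) (by norm_num) (by linarith) (by linarith)
      hX1 hX2).2
    have h4 : 0 ≤ A * (A + 41/60) := mul_nonneg_of_nonpos_of_nonpos (by linarith) (by linarith)
    have h5 : 0 ≤ A * (A + 41/60) * Z := mul_nonneg h4 (by linarith)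
    linarith
  l1 A h1 h2 := by
    have hA2 : A ^ 2 ≤ 81/1600 := by nlinarith
    have hA0 : 0 ≤ A ^ 2 := sq_nonneg A
    have h3 := (prod_bd (c := 2*A*(1681/1600-A^2)) (C := 1) (by norm_num)
      (by nlinarith) (by nlinarith) hX1 hX2).2
    have h4 := (prod_bd (c := (1681/1800 - (1681/1600-A^2))) (C := 1/5) (by norm_num)
      (by linarith) (by linarith) (x := Z) (e := 101/100) (by linarith) hZ2).1
    have h5 : 1 ≤ (1681/1600-A^2)^2 := by nlinarith
    have h6 : Y ≤ (1681/1600-A^2)^2 * Y := by nlinarith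
    linarith
  l2 A h1 h2 := by
    have h3 := (prod_bd (c := 2*A+41/12) (C := 5/2) (by norm_num) (by linarith) (by linarith)
      hX1 hX2).2
    have h4 : 0 ≤ (A+41/30)*(A+41/20) := mul_nonneg (by linarith) (by linarith)
    have h5 : 0 ≤ (A+41/30)*(A+41/20) * Z := mul_nonneg h4 (by linarith)
    linarith
  l3 A h1 h2 := by
    have h3 := (prod_bd (c := 2*A^2+41/20*A-1681/1800) (C := 3) (by norm_num) (by nlinarith)
      (by nlinarith) hX1 hX2).1
    have h4 : 1/2 ≤ -A^3-41/20*A^2+68921/54000 := by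
      have hA2 : A ^ 2 ≤ 289/900 := by nlinarith
      have hA3 : 0 ≤ -A ^ 3 := by
        have : -A ^ 3 = (-A) * A ^ 2 := by ring
        rw [this]; exact mul_nonneg (by linarith) (sq_nonneg A)
      linarith
    have h5 : 1/2 * (99/100) ≤ (-A^3-41/20*A^2+68921/54000) * Z :=
      mul_le_mul h4 hZ1 (by norm_num) (by linarith)
    have h6 : 0 ≤ -A * Y := mul_nonneg (by linarith) (by linarith)
    linarith
  l5 A h1 h2 := by
    have h3 := (prod_bd (c := 2*A^2+41/20*A-1681/1800) (C := 3) (by norm_num) (by nlinarith)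
      (by nlinarith) hX1 hX2).2
    have h4 : 1/2 ≤ -A^3-41/20*A^2+68921/54000 := by
      have hA2 : A ^ 2 ≤ 289/900 := by nlinarith
      have hA3 : 0 ≤ -A ^ 3 := by
        have : -A ^ 3 = (-A) * A ^ 2 := by ring
        rw [this]; exact mul_nonneg (by linarith) (sq_nonneg A)
      linarith
    have h5 : 1/2 * (99/100) ≤ (-A^3-41/20*A^2+68921/54000) * Z :=
      mul_le_mul h4 hZ1 (by norm_num) (by linarith)
    have h6 : 0 ≤ -A * Y := mul_nonneg (by linarith) (by linarith)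
    linarith
  top A h1 h2 := by
    have h3 := (prod_bd (c := 2*A) (C := 1) (by norm_num) (by linarith) (by linarith) hX1 hX2).1
    have h4 := (prod_bd (c := 1681/14400-A^2) (C := 1/5) (by norm_num) (by nlinarith)
      (by nlinarith) (x := Y) (e := 101/100) (by linarith) hY2).2
    linarith

theorem K_interior : (interior Kbody).Nonempty := by
  refine ⟨0, mem_interior.2 ⟨Metric.ball 0 (1/100), ?_, Metric.isOpen_ball, ?_⟩⟩
  · intro y hy
    rw [mem_ball_zero_iff] at hy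
    have h0 : |y 0| ≤ ‖y‖ := by simpa using PiLp.norm_apply_le y 0
    have h1 : |y 1| ≤ ‖y‖ := by simpa using PiLp.norm_apply_le y 1
    have h0' := abs_le.1 (h0.trans hy.le)
    have h1' := abs_le.1 (h1.trans hy.le)
    exact small_InK h1'.1 h1'.2 (by linarith [h0'.2]) (by linarith [h0'.1]) (by linarith [h0'.1])
      (by linarith [h0'.2])
  · simp

lemma InK.Ypos {X Y : ℝ} (h : InK X Y 1) : 0 < Y := by
  have c1 := h.l1 (-9/40) (by norm_num) (by norm_num)
  have c2 := h.l1 (9/40) (by norm_num) (by norm_num)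
  norm_num at c1 c2
  linarith

theorem mem_K_of_InK {X Y : ℝ} (h : InK X Y 1) (hY : -1 < Y) :
    (!₂[(1 - Y)/(1 + Y), 2*X/(1+Y)] : E2) ∈ Kbody := by
  have h1 : 0 < 1 + Y := by linarith
  have h2 := InK.smul (c := 2 / (1 + Y)) (by positivity) h
  show InK ((!₂[(1 - Y)/(1 + Y), 2*X/(1+Y)] : E2) 1) (1 - (!₂[(1 - Y)/(1 + Y), 2*X/(1+Y)] : E2) 0)
    (1 + (!₂[(1 - Y)/(1 + Y), 2*X/(1+Y)] : E2) 0)
  have e1 : (!₂[(1 - Y)/(1 + Y), 2*X/(1+Y)] : E2) 1 = 2 / (1 + Y) * X := by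
    simp; ring
  have e2 : 1 - (!₂[(1 - Y)/(1 + Y), 2*X/(1+Y)] : E2) 0 = 2 / (1 + Y) * Y := by
    simp; field_simp; ring
  have e3 : 1 + (!₂[(1 - Y)/(1 + Y), 2*X/(1+Y)] : E2) 0 = 2 / (1 + Y) * 1 := by
    simp; field_simp; ring
  rw [e1, e2, e3]
  exact h2

theorem K_no_center (h0 : InK 0 (1600/15129) 1) (h2 : InK (205/218) 1 1)
    (h5 : InK (-205/218) 1 1) :
    ¬ ∃ c : E2, ∀ y ∈ Kbody, (2:ℝ) • c - y ∈ Kbody := by
  rintro ⟨c, hc⟩
  have p2 := hc _ (mem_K_of_InK h2 (by norm_num))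
  have p5 := hc _ (mem_K_of_InK h5 (by norm_num))
  have p0 := hc _ (mem_K_of_InK h0 (by norm_num))
  have q2 : InK (2 * c 1 - 205/218) (1 - 2 * c 0) (1 + 2 * c 0) := by
    have : InK _ _ _ := p2
    convert this using 1 <;> (simp; try ring)
  have q5 : InK (2 * c 1 + 205/218) (1 - 2 * c 0) (1 + 2 * c 0) := by
    have : InK _ _ _ := p5
    convert this using 1 <;> (simp; try ring)
  have q0 : InK (2 * c 1) (1 - (2 * c 0 - 13529/16729)) (1 + (2 * c 0 - 13529/16729)) := by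
    have : InK _ _ _ := p0
    convert this using 1 <;> (simp; try ring_nf)
  have a2 := q2.l0 (-5/4) (by norm_num) (by norm_num)
  have a5 := q5.l3 (-17/30) (by norm_num) (by norm_num)
  have b5 := q5.l2 (-4/5) (by norm_num) (by norm_num)
  have b2 := q2.l5 (-17/30) (by norm_num) (by norm_num)
  have t0 := q0.top 0 (by norm_num) (by norm_num)
  norm_num at a2 a5 b5 b2 t0
  have hc0 : c 0 = 0 := by linarith
  rw [hc0] at t0
  norm_num at t0

/-- rotation by a right angle -/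
noncomputable def J (x : E2) : E2 := !₂[-(x 1), x 0]

@[simp] lemma J_zero (x : E2) : J x 0 = -(x 1) := by simp [J]
@[simp] lemma J_one (x : E2) : J x 1 = x 0 := by simp [J]

lemma ext2 {u v : E2} (h0 : u 0 = v 0) (h1 : u 1 = v 1) : u = v := by
  ext i
  fin_cases i
  · exact h0
  · exact h1

lemma proj_eq {K : Set E2} (hconv : Convex ℝ K) (hball : ∀ y ∈ K, y 0 ^ 2 + y 1 ^ 2 < 1) {x : E2}
    (hx : x 0 ^ 2 + x 1 ^ 2 = 1) {m M : ℝ}
    (h1 : ∀ y ∈ K, m * (1 - (y 0 * x 0 + y 1 * x 1)) ≤ y 1 * x 0 - y 0 * x 1)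
    (h2 : ∀ y ∈ K, y 1 * x 0 - y 0 * x 1 ≤ M * (1 - (y 0 * x 0 + y 1 * x 1)))
    (h3 : ∃ y ∈ K, m * (1 - (y 0 * x 0 + y 1 * x 1)) = y 1 * x 0 - y 0 * x 1)
    (h4 : ∃ y ∈ K, y 1 * x 0 - y 0 * x 1 = M * (1 - (y 0 * x 0 + y 1 * x 1))) :
    proj K x = {z | ∃ s : ℝ, m ≤ s ∧ s ≤ M ∧ z = s • J x} := by
  have hpos : ∀ y ∈ K, 0 < 1 - (y 0 * x 0 + y 1 * x 1) := by
    intro y hy
    have := hball y hy
    nlinarith [sq_nonneg (y 0 - x 0), sq_nonneg (y 1 - x 1)]
  ext z
  constructor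
  · rintro ⟨⟨l, hl, y, hy, hz⟩, horth⟩
    have horth' : inner ℝ z x = 0 := horth
    rw [inner2] at horth'
    have z0 : z 0 = x 0 + l * (y 0 - x 0) := by rw [hz]; simp
    have z1 : z 1 = x 1 + l * (y 1 - x 1) := by rw [hz]; simp
    have hlD : l * (1 - (y 0 * x 0 + y 1 * x 1)) = 1 := by
      rw [z0, z1] at horth'
      linear_combination -horth' + (1 - l) * hx
    have hs : z 1 * x 0 - z 0 * x 1 = l * (y 1 * x 0 - y 0 * x 1) := by
      rw [z0, z1]; ring
    refine ⟨l * (y 1 * x 0 - y 0 * x 1), ?_, ?_, ?_⟩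
    · have := mul_le_mul_of_nonneg_left (h1 y hy) hl
      calc m = m * (l * (1 - (y 0 * x 0 + y 1 * x 1))) := by rw [hlD, mul_one]
        _ = l * (m * (1 - (y 0 * x 0 + y 1 * x 1))) := by ring
        _ ≤ _ := this
    · have := mul_le_mul_of_nonneg_left (h2 y hy) hl
      calc l * (y 1 * x 0 - y 0 * x 1) ≤ l * (M * (1 - (y 0 * x 0 + y 1 * x 1))) := this
        _ = M * (l * (1 - (y 0 * x 0 + y 1 * x 1))) := by ring
        _ = M := by rw [hlD, mul_one]
    · rw [← hs]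
      apply ext2
      · simp only [PiLp.smul_apply, smul_eq_mul, J_zero]
        linear_combination (-(z 0)) * hx + x 0 * horth'
      · simp only [PiLp.smul_apply, smul_eq_mul, J_one]
        linear_combination (-(z 1)) * hx + x 1 * horth'
  · rintro ⟨s, hs1, hs2, rfl⟩
    -- a point of `K` on the line
    have hex : ∃ y ∈ K, y 1 * x 0 - y 0 * x 1 = s * (1 - (y 0 * x 0 + y 1 * x 1)) := by
      obtain ⟨ya, hya, ea⟩ := h3
      obtain ⟨yb, hyb, eb⟩ := h4
      have hFa : 0 ≤ s * (1 - (ya 0 * x 0 + ya 1 * x 1)) - (ya 1 * x 0 - ya 0 * x 1) := by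
        rw [← ea, ← sub_mul]
        exact mul_nonneg (by linarith) (hpos ya hya).le
      have hFb : 0 ≤ (yb 1 * x 0 - yb 0 * x 1) - s * (1 - (yb 0 * x 0 + yb 1 * x 1)) := by
        rw [eb, ← sub_mul]
        exact mul_nonneg (by linarith) (hpos yb hyb).le
      set Fa := s * (1 - (ya 0 * x 0 + ya 1 * x 1)) - (ya 1 * x 0 - ya 0 * x 1) with hFa'
      set Fb := (yb 1 * x 0 - yb 0 * x 1) - s * (1 - (yb 0 * x 0 + yb 1 * x 1)) with hFb'
      by_cases hz : Fa + Fb = 0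
      · have hFa0 : Fa = 0 := by linarith
        exact ⟨ya, hya, by linarith⟩
      · have hsum : 0 < Fa + Fb := lt_of_le_of_ne (by linarith) (Ne.symm hz)
        refine ⟨(Fb / (Fa + Fb)) • ya + (Fa / (Fa + Fb)) • yb, hconv hya hyb
          (by positivity) (by positivity) (by field_simp; ring), ?_⟩
        simp only [PiLp.add_apply, PiLp.smul_apply, smul_eq_mul]
        have e1 : Fb / (Fa + Fb) + Fa / (Fa + Fb) = 1 := by field_simp; ring
        have e2 : Fb / (Fa + Fb) * Fa = Fa / (Fa + Fb) * Fb := by ring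
        generalize Fb / (Fa + Fb) = p at *
        generalize Fa / (Fa + Fb) = q at *
        rw [hFa', hFb'] at e2
        linear_combination (-1) * e2 + s * e1
    obtain ⟨y, hy, he⟩ := hex
    have hD := hpos y hy
    obtain ⟨l, hl⟩ : ∃ l : ℝ, l * (1 - (y 0 * x 0 + y 1 * x 1)) = 1 :=
      ⟨(1 - (y 0 * x 0 + y 1 * x 1))⁻¹, inv_mul_cancel₀ hD.ne'⟩
    have hl0 : 0 ≤ l := by
      by_contra hcon
      push Not at hcon
      nlinarith
    refine ⟨⟨l, hl0, y, hy, ?_⟩, ?_⟩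
    · apply ext2
      · simp only [PiLp.add_apply, PiLp.sub_apply, PiLp.smul_apply, smul_eq_mul, J_zero]
        linear_combination (l * x 1) * he + (x 1 * s + x 0) * hl + (l * y 0) * hx
      · simp only [PiLp.add_apply, PiLp.sub_apply, PiLp.smul_apply, smul_eq_mul, J_one]
        linear_combination (-(l * x 0)) * he + (-(x 0 * s) + x 1) * hl + (l * y 1) * hx
    · show inner ℝ (s • J x) x = 0
      rw [inner2]
      simp only [PiLp.smul_apply, smul_eq_mul, J_zero, J_one]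
      ring

lemma translate_half (hgood : ∀ t : ℝ, -5/4 ≤ t → t ≤ 4/5 → Good t) {x : E2}
    (hx : x 0 ^ 2 + x 1 ^ 2 = 1) (hh : 9 * x 1 ≤ 40 * x 0) :
    ∃ v : E2, inner ℝ v x = 0 ∧ proj Kbody (-x) = (fun z => v + z) '' proj Kbody x := by
  have hx0 : 0 < 1 + x 0 := by
    by_contra hcon
    have : x 0 ≤ -1 := by linarith
    have h1 : x 1 ^ 2 = 0 := by nlinarith [sq_nonneg (x 1)]
    have h2 : x 1 = 0 := by simpa using h1
    rw [h2] at hh
    linarith
  set t := x 1 / (1 + x 0) with ht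
  have ht1 : t * (1 + x 0) = x 1 := by rw [ht]; field_simp
  have hT : 0 < 1 + t ^ 2 := by positivity
  have hc0 : (1 + t ^ 2) * x 0 = 1 - t ^ 2 := by
    have h1 : (1 + t ^ 2) * (1 + x 0) ^ 2 = 2 * (1 + x 0) := by
      have : (1 + t ^ 2) * (1 + x 0) ^ 2 = (1 + x 0) ^ 2 + (t * (1 + x 0)) ^ 2 := by ring
      rw [this, ht1]; linear_combination hx
    have h2 : (1 + t ^ 2) * (1 + x 0) = 2 := by
      have h3 : ((1 + t ^ 2) * (1 + x 0) - 2) * (1 + x 0) = 0 := by linear_combination h1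
      rcases mul_eq_zero.1 h3 with h4 | h4
      · linarith
      · linarith
    linear_combination h2
  have hc1 : (1 + t ^ 2) * x 1 = 2 * t := by
    rw [← ht1]; linear_combination t * hc0
  have hpoly : 0 ≤ (5 + 4 * t) * (8 - 10 * t) := by
    have h1 : 0 ≤ (1 + t ^ 2) * (40 * x 0 - 9 * x 1) := mul_nonneg hT.le (by linarith)
    have h2 : (1 + t ^ 2) * (40 * x 0 - 9 * x 1) = (5 + 4 * t) * (8 - 10 * t) := by
      linear_combination 40 * hc0 - 9 * hc1
    rw [← h2]; exact h1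
  have ht54 : -5/4 ≤ t := by
    by_contra hcon
    push Not at hcon
    nlinarith
  have ht45 : t ≤ 4/5 := by
    by_contra hcon
    push Not at hcon
    nlinarith
  obtain ⟨a, b, a', b', hlen, g1, g2, g3, g4, ⟨X1, Y1, i1, q1⟩, ⟨X2, Y2, i2, q2⟩, ⟨X3, Y3, i3, q3⟩,
    ⟨X4, Y4, i4, q4⟩⟩ := hgood t ht54 ht45
  -- the identities
  have id1 : ∀ y : E2, (1 + t ^ 2) * (1 - (y 0 * x 0 + y 1 * x 1)) =
      (1 - y 0) - 2 * t * y 1 + t ^ 2 * (1 + y 0) := by
    intro y; linear_combination (-(y 0)) * hc0 - (y 1) * hc1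
  have id2 : ∀ y : E2, (1 + t ^ 2) * (y 1 * x 0 - y 0 * x 1) =
      (1 + t ^ 2) * (y 1 - t * (1 + y 0)) + t * ((1 - y 0) - 2 * t * y 1 + t ^ 2 * (1 + y 0)) := by
    intro y; linear_combination (y 1) * hc0 - (y 0) * hc1
  have id3 : ∀ y : E2, (1 + t ^ 2) * (1 + (y 0 * x 0 + y 1 * x 1)) =
      (1 + y 0) + 2 * t * y 1 + t ^ 2 * (1 - y 0) := by
    intro y; linear_combination (y 0) * hc0 + (y 1) * hc1
  have id4 : ∀ y : E2, -((1 + t ^ 2) * (y 1 * x 0 - y 0 * x 1)) =
      (1 + t ^ 2) * (-(y 1 + t * (1 - y 0))) +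
        t * ((1 + y 0) + 2 * t * y 1 + t ^ 2 * (1 - y 0)) := by
    intro y; linear_combination (-(y 1)) * hc0 + (y 0) * hc1
  have chart : ∀ X Y : ℝ, InK X Y 1 → ∃ y ∈ Kbody, ∃ c : ℝ, 0 < c ∧ y 1 = c * X ∧
      1 - y 0 = c * Y ∧ 1 + y 0 = c := by
    intro X Y h
    have hY := h.Ypos
    have h1 : 0 < 1 + Y := by linarith
    refine ⟨_, mem_K_of_InK h (by linarith), 2 / (1 + Y), by positivity, ?_, ?_, ?_⟩
    · simp; ring
    · simp; field_simp; ring
    · simp; field_simp; ring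
  have P1 : proj Kbody x = {z | ∃ s : ℝ, (1 + t ^ 2) * a + t ≤ s ∧ s ≤ (1 + t ^ 2) * b + t ∧
      z = s • J x} := by
    refine proj_eq K_convex (fun y hy => K_in hy) hx ?_ ?_ ?_ ?_
    · intro y hy
      have e := g1 _ _ _ hy
      have e2 := mul_le_mul_of_nonneg_left e hT.le
      have : (1 + t ^ 2) * (((1 + t ^ 2) * a + t) * (1 - (y 0 * x 0 + y 1 * x 1))) ≤
          (1 + t ^ 2) * (y 1 * x 0 - y 0 * x 1) := by
        rw [id2 y]
        have h5 : (1 + t ^ 2) * (((1 + t ^ 2) * a + t) * (1 - (y 0 * x 0 + y 1 * x 1))) =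
          ((1 + t ^ 2) * a + t) * ((1 + t ^ 2) * (1 - (y 0 * x 0 + y 1 * x 1))) := by ring
        rw [h5, id1 y]
        linarith
      exact le_of_mul_le_mul_left this hT
    · intro y hy
      have e := g2 _ _ _ hy
      have e2 := mul_le_mul_of_nonneg_left e hT.le
      have : (1 + t ^ 2) * (y 1 * x 0 - y 0 * x 1) ≤
          (1 + t ^ 2) * (((1 + t ^ 2) * b + t) * (1 - (y 0 * x 0 + y 1 * x 1))) := by
        rw [id2 y]
        have h5 : (1 + t ^ 2) * (((1 + t ^ 2) * b + t) * (1 - (y 0 * x 0 + y 1 * x 1))) =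
          ((1 + t ^ 2) * b + t) * ((1 + t ^ 2) * (1 - (y 0 * x 0 + y 1 * x 1))) := by ring
        rw [h5, id1 y]
        linarith
      exact le_of_mul_le_mul_left this hT
    · obtain ⟨y, hy, c, hc, c1, c2, c3⟩ := chart X1 Y1 i1
      refine ⟨y, hy, ?_⟩
      apply mul_left_cancel₀ hT.ne'
      have h5 : (1 + t ^ 2) * (((1 + t ^ 2) * a + t) * (1 - (y 0 * x 0 + y 1 * x 1))) =
          ((1 + t ^ 2) * a + t) * ((1 + t ^ 2) * (1 - (y 0 * x 0 + y 1 * x 1))) := by ring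
      rw [h5, id1 y, id2 y, c1, c2, c3]
      linear_combination (c * (1 + t ^ 2)) * q1
    · obtain ⟨y, hy, c, hc, c1, c2, c3⟩ := chart X2 Y2 i2
      refine ⟨y, hy, ?_⟩
      apply mul_left_cancel₀ hT.ne'
      have h5 : (1 + t ^ 2) * (((1 + t ^ 2) * b + t) * (1 - (y 0 * x 0 + y 1 * x 1))) =
          ((1 + t ^ 2) * b + t) * ((1 + t ^ 2) * (1 - (y 0 * x 0 + y 1 * x 1))) := by ring
      rw [h5, id1 y, id2 y, c1, c2, c3]
      linear_combination (c * (1 + t ^ 2)) * q2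
  have P2 : proj Kbody (-x) = {z | ∃ s : ℝ, (1 + t ^ 2) * a' + t ≤ s ∧
      s ≤ (1 + t ^ 2) * b' + t ∧ z = s • J (-x)} := by
    have n0 : (-x) 0 = -(x 0) := by simp
    have n1 : (-x) 1 = -(x 1) := by simp
    have hD : ∀ y : E2, 1 - (y 0 * (-x) 0 + y 1 * (-x) 1) = 1 + (y 0 * x 0 + y 1 * x 1) := by
      intro y; rw [n0, n1]; ring
    have hN : ∀ y : E2, y 1 * (-x) 0 - y 0 * (-x) 1 = -(y 1 * x 0 - y 0 * x 1) := by
      intro y; rw [n0, n1]; ring
    refine proj_eq K_convex (fun y hy => K_in hy) (by rw [n0, n1]; linear_combination hx)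
      ?_ ?_ ?_ ?_
    · intro y hy
      rw [hD, hN]
      have e := g3 _ _ _ hy
      have e2 := mul_le_mul_of_nonneg_left e hT.le
      have : (1 + t ^ 2) * (((1 + t ^ 2) * a' + t) * (1 + (y 0 * x 0 + y 1 * x 1))) ≤
          (1 + t ^ 2) * (-(y 1 * x 0 - y 0 * x 1)) := by
        rw [mul_neg, id4 y]
        have h5 : (1 + t ^ 2) * (((1 + t ^ 2) * a' + t) * (1 + (y 0 * x 0 + y 1 * x 1))) =
          ((1 + t ^ 2) * a' + t) * ((1 + t ^ 2) * (1 + (y 0 * x 0 + y 1 * x 1))) := by ring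
        rw [h5, id3 y]
        linarith
      exact le_of_mul_le_mul_left this hT
    · intro y hy
      rw [hD, hN]
      have e := g4 _ _ _ hy
      have e2 := mul_le_mul_of_nonneg_left e hT.le
      have : (1 + t ^ 2) * (-(y 1 * x 0 - y 0 * x 1)) ≤
          (1 + t ^ 2) * (((1 + t ^ 2) * b' + t) * (1 + (y 0 * x 0 + y 1 * x 1))) := by
        rw [mul_neg, id4 y]
        have h5 : (1 + t ^ 2) * (((1 + t ^ 2) * b' + t) * (1 + (y 0 * x 0 + y 1 * x 1))) =
          ((1 + t ^ 2) * b' + t) * ((1 + t ^ 2) * (1 + (y 0 * x 0 + y 1 * x 1))) := by ring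
        rw [h5, id3 y]
        linarith
      exact le_of_mul_le_mul_left this hT
    · obtain ⟨y, hy, c, hc, c1, c2, c3⟩ := chart X3 Y3 i3
      refine ⟨y, hy, ?_⟩
      rw [hD, hN]
      apply mul_left_cancel₀ hT.ne'
      have h5 : (1 + t ^ 2) * (((1 + t ^ 2) * a' + t) * (1 + (y 0 * x 0 + y 1 * x 1))) =
          ((1 + t ^ 2) * a' + t) * ((1 + t ^ 2) * (1 + (y 0 * x 0 + y 1 * x 1))) := by ring
      rw [h5, id3 y, mul_neg, id4 y, c1, c2, c3]
      linear_combination (c * (1 + t ^ 2)) * q3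
    · obtain ⟨y, hy, c, hc, c1, c2, c3⟩ := chart X4 Y4 i4
      refine ⟨y, hy, ?_⟩
      rw [hD, hN]
      apply mul_left_cancel₀ hT.ne'
      have h5 : (1 + t ^ 2) * (((1 + t ^ 2) * b' + t) * (1 + (y 0 * x 0 + y 1 * x 1))) =
          ((1 + t ^ 2) * b' + t) * ((1 + t ^ 2) * (1 + (y 0 * x 0 + y 1 * x 1))) := by ring
      rw [h5, id3 y, mul_neg, id4 y, c1, c2, c3]
      linear_combination (c * (1 + t ^ 2)) * q4
  have hJ : J (-x) = -J x := by
    apply ext2 <;> simp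
  refine ⟨(-((1 + t ^ 2) * b' + t) - ((1 + t ^ 2) * a + t)) • J x, ?_, ?_⟩
  · rw [inner2]
    simp only [PiLp.smul_apply, smul_eq_mul, J_zero, J_one]
    ring
  · rw [P1, P2]
    ext z
    simp only [Set.mem_image, Set.mem_ofPred_eq]
    constructor
    · rintro ⟨s, hs1, hs2, rfl⟩
      refine ⟨((1 + t ^ 2) * b' + t + ((1 + t ^ 2) * a + t) - s) • J x,
        ⟨_, ?_, ?_, rfl⟩, ?_⟩
      · linarith
      · have : (1 + t ^ 2) * (b - a) = (1 + t ^ 2) * (b' - a') := by rw [hlen]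
        linarith
      · rw [hJ, ← add_smul, smul_neg, ← neg_smul]
        congr 1
        ring
    · rintro ⟨w, ⟨s, hs1, hs2, rfl⟩, rfl⟩
      refine ⟨(1 + t ^ 2) * b' + t + ((1 + t ^ 2) * a + t) - s, ?_, ?_, ?_⟩
      · have : (1 + t ^ 2) * (b - a) = (1 + t ^ 2) * (b' - a') := by rw [hlen]
        linarith
      · linarith
      · rw [hJ, ← add_smul, smul_neg, ← neg_smul]
        congr 1
        ring

theorem translate_of_good (hgood : ∀ t : ℝ, -5/4 ≤ t → t ≤ 4/5 → Good t) :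
    ∀ x ∈ Metric.sphere (0:E2) 1, ∃ v : E2, inner ℝ v x = 0 ∧
      proj Kbody (-x) = (fun z => v + z) '' proj Kbody x := by
  intro x hx
  have hx1 : x 0 ^ 2 + x 1 ^ 2 = 1 := by
    rw [← norm2, mem_sphere_zero_iff_norm.1 hx]; norm_num
  by_cases hh : 9 * x 1 ≤ 40 * x 0
  · exact translate_half hgood hx1 hh
  · push Not at hh
    have n0 : (-x) 0 = -(x 0) := by simp
    have n1 : (-x) 1 = -(x 1) := by simp
    obtain ⟨v, hv, he⟩ := translate_half hgood (x := -x) (by rw [n0, n1]; linear_combination hx1)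
      (by rw [n0, n1]; linarith)
    rw [neg_neg] at he
    refine ⟨-v, ?_, ?_⟩
    · rw [inner_neg_left]
      rw [inner_neg_right] at hv
      linarith
    · rw [he, Set.image_image]
      simp

end Pool.Agent.R957.CP
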